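import Pool.Agent.Helper86.SG.Defs

/-! Package CLS of `Pool.Agent.Helper86.SG.Defs`. -/

set_option autoImplicit false

open Finset

namespace Pool.Agent.Helper84.SG

open _root_.SG
open _root_.SJ (supp IsV dot fib)

variable {n : ℕ}

lemma mem_supp {v : Fin n → ℤ} {i : Fin n} : i ∈ supp v ↔ v i ≠ 0 := by simp [supp]

/-- the vector over `S` which is `β` on `B` and `c` elsewhere -/
def ov (S B : Finset (Fin n)) (β c : Fin n → ℤ) : Fin n → ℤ :=
  fun i => if i ∈ S then (if i ∈ B then β i else c i) else 0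

lemma ov_isV {k : ℕ} {S B : Finset (Fin n)} {β c : Fin n → ℤ} (hS : #S = k)
    (hc : ∀ i, c i = 1 ∨ c i = -1) (hβ : ∀ i ∈ B, β i = 1 ∨ β i = -1) :
    IsV n k (ov S B β c) ∧ supp (ov S B β c) = S := by
  have h : supp (ov S B β c) = S := by
    ext i
    rw [mem_supp, ov]
    by_cases h1 : i ∈ S
    · by_cases h2 : i ∈ B
      · rcases hβ i h2 with h | h <;> simp [h1, h2, h]
      · rcases hc i with h | h <;> simp [h1, h2, h]
    · simp [h1]
  refine ⟨⟨fun i => ?_, by rw [h]; exact hS⟩, h⟩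
  unfold ov
  by_cases h1 : i ∈ S
  · by_cases h2 : i ∈ B
    · rcases hβ i h2 with h | h <;> simp [h1, h2, h]
    · rcases hc i with h | h <;> simp [h1, h2, h]
  · simp [h1]

lemma mem_HH {k d : ℕ} {F : Finset (Fin n → ℤ)} {S : Finset (Fin n)} (hS : #S = k)
    {v : Fin n → ℤ} (hv : v ∈ F) (hs : supp v = S) {A : Finset (Fin n)} (hA : #A = 2 * d + 2)
    (hcl : Clash F v A) : S ∈ HH k d F := by
  classical
  unfold HH
  rw [mem_filter, mem_powersetCard]
  exact ⟨⟨subset_univ _, hS⟩, v, hv, hs, A, hA, hcl⟩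

/-- If `β` on `B ⊆ S` has at most `d` disagreements with `c` off `f`, the vector is a member. -/
lemma ov_mem {k d : ℕ} {F : Finset (Fin n → ℤ)} {S B : Finset (Fin n)} {f : Fin n}
    {β c : Fin n → ℤ} (hS : #S = k) (hstr : Str k d F S f c)
    (hβ : ∀ i ∈ B, β i = 1 ∨ β i = -1)
    (hd : #((B.erase f).filter (fun i => β i ≠ c i)) ≤ d) : ov S B β c ∈ F := by
  obtain ⟨hf, hc, h⟩ := hstr
  obtain ⟨h1, h2⟩ := ov_isV hS hc hβ
  rw [h _ h1 h2]
  refine (card_le_card ?_).trans hd
  intro i hi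
  rw [mem_filter, mem_erase] at hi ⊢
  obtain ⟨⟨h3, h4⟩, h5⟩ := hi
  by_cases h6 : i ∈ B
  · simp only [ov, h4, h6, if_true] at h5
    exact ⟨⟨h3, h6⟩, h5⟩
  · simp [ov, h4, h6] at h5

lemma pattern {k d : ℕ} {F : Finset (Fin n → ℤ)} (hF : ∀ v ∈ F, IsV n k v)
    {A : Finset (Fin n)} (hA : #A = 2 * d + 2) {v : Fin n → ℤ} (hv : v ∈ F) (hcl : Clash F v A)
    {S : Finset (Fin n)} (hS : #S = k) (hH : S ∉ HH k d F) (hAS : A ⊆ S) {f : Fin n}
    {c : Fin n → ℤ} (hstr : Str k d F S f c) :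
    f ∉ A ∧ #(A.filter (fun i => v i = c i)) = d + 1 := by
  classical
  obtain ⟨hAv, w, hw, hwv⟩ := hcl
  have hpm : ∀ i ∈ A, v i = 1 ∨ v i = -1 := by
    intro i hi
    have h1 := (hF v hv).1 i
    have h2 := mem_supp.1 (hAv hi)
    rcases h1 with h | h | h
    · exact Or.inr h
    · exact absurd h h2
    · exact Or.inl h
  have hpm' : ∀ i ∈ A, (fun j => - v j) i = 1 ∨ (fun j => - v j) i = -1 := by
    intro i hi
    rcases hpm i hi with h | h
    · right; simp [h]
    · left; simp [h]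
  have hc := hstr.2.1
  have e1 : ¬ #((A.erase f).filter (fun i => v i ≠ c i)) ≤ d := by
    intro h
    have hm := ov_mem hS hstr hpm h
    obtain ⟨h1, h2⟩ := ov_isV (B := A) (β := v) hS hc hpm
    refine hH (mem_HH hS hm h2 hA ⟨by rw [h2]; exact hAS, w, hw, fun x hx => ?_⟩)
    rw [hwv x hx]
    simp [ov, hAS hx, hx]
  have e2 : ¬ #((A.erase f).filter (fun i => (fun j => - v j) i ≠ c i)) ≤ d := by
    intro h
    have hm := ov_mem hS hstr hpm' h
    obtain ⟨h1, h2⟩ := ov_isV (B := A) (β := fun j => - v j) hS hc hpm'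
    refine hH (mem_HH hS hm h2 hA ⟨by rw [h2]; exact hAS, v, hv, fun x hx => ?_⟩)
    simp [ov, hAS hx, hx]
  have e3 : (A.erase f).filter (fun i => (fun j => - v j) i ≠ c i) =
      (A.erase f).filter (fun i => v i = c i) := by
    apply filter_congr
    intro i hi
    have hi' := mem_of_mem_erase hi
    rcases hpm i hi' with h | h <;> rcases hc i with h' | h' <;> simp [h, h']
  rw [e3] at e2
  have e4 : #((A.erase f).filter (fun i => v i = c i)) +
      #((A.erase f).filter (fun i => v i ≠ c i)) = #(A.erase f) :=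
    card_filter_add_card_filter_not (s := A.erase f) (fun i => v i = c i)
  have hf : f ∉ A := by
    intro hfA
    rw [card_erase_of_mem hfA] at e4
    omega
  rw [erase_eq_of_notMem hf] at e1 e2 e4
  exact ⟨hf, by omega⟩

theorem cls : CLSStm := by
  classical
  intro n k d F hk hF A hA v hv hcl S hS hH hAS f c hstr
  have hf := (pattern hF hA hv hcl hS hH hAS hstr).1
  unfold DD
  rw [mem_filter]
  refine ⟨mem_univ _, hf, fun u hu hclu => ?_⟩
  by_contra hne
  obtain ⟨-, hcard⟩ := pattern hF hA hu hclu hS hH hAS hstr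
  have hc := hstr.2.1
  have hpm : ∀ i, u i ≠ 0 → u i = 1 ∨ u i = -1 := by
    intro i hi
    rcases (hF u hu).1 i with h | h | h
    · exact Or.inr h
    · exact absurd h hi
    · exact Or.inl h
  have hpos : (A.filter (fun i => u i = c i)).Nonempty := by
    rw [← card_pos]; omega
  obtain ⟨y, hy⟩ := hpos
  rw [mem_filter] at hy
  obtain ⟨hyA, hyc⟩ := hy
  set B : Finset (Fin n) := insert f (A.erase y) with hB
  have hfe : f ∉ A.erase y := fun h => hf (mem_of_mem_erase h)
  have hBc : #B = 2 * d + 2 := by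
    rw [hB, card_insert_of_notMem hfe, card_erase_of_mem hyA, hA]
    omega
  have hBS : B ⊆ S := by
    rw [hB]
    intro x hx
    rcases mem_insert.1 hx with rfl | h
    · exact hstr.1
    · exact hAS (mem_of_mem_erase h)
  have hBu : ∀ x ∈ B, u x ≠ 0 := by
    intro x hx
    rcases mem_insert.1 hx with rfl | h
    · exact hne
    · exact mem_supp.1 (hclu.1 (mem_of_mem_erase h))
  have hβ : ∀ i ∈ B, (fun j => - u j) i = 1 ∨ (fun j => - u j) i = -1 := by
    intro i hi
    rcases hpm i (hBu i hi) with h | h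
    · right; simp [h]
    · left; simp [h]
  have hd : #((B.erase f).filter (fun i => (fun j => - u j) i ≠ c i)) ≤ d := by
    have e : (B.erase f).filter (fun i => (fun j => - u j) i ≠ c i) ⊆
        (A.filter (fun i => u i = c i)).erase y := by
      intro i hi
      rw [mem_filter, hB, erase_insert hfe, mem_erase] at hi
      obtain ⟨⟨h1, h2⟩, h3⟩ := hi
      rw [mem_erase, mem_filter]
      refine ⟨h1, h2, ?_⟩
      have h4 := mem_supp.1 (hclu.1 h2)
      rcases hpm i h4 with h | h <;> rcases hc i with h' | h' <;> simp_all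
    refine (card_le_card e).trans ?_
    rw [card_erase_of_mem (mem_filter.2 ⟨hyA, hyc⟩), hcard]
    omega
  have hm := ov_mem hS hstr hβ hd
  obtain ⟨h1, h2⟩ := ov_isV (B := B) (β := fun j => - u j) hS hc hβ
  refine hH (mem_HH hS hm h2 hBc ⟨by rw [h2]; exact hBS, u, hu, fun x hx => ?_⟩)
  simp [ov, hBS hx, hx]

end Pool.Agent.Helper84.SG
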